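import Pool.Agent.Q329.PF.Main
import Pool.Agent.Q329.PF.Asym

/-!
# Logarithmic approximation needs only `d ^ o(1)` portfolio members

The definitions used in the statement are in `Pool/Agent/Q329/PF/Defs.lean`:

* `IsSymMonNorm f`: `f` is a symmetric monotonic norm on `ℝ ^ d`;
* `covering A b`: the covering polyhedron `{x ≥ 0 : A x ≥ b}`;
* `IsPortfolio α P X`: the finite set `X ⊆ P` is an `α`-approximate portfolio for `P`.

Proof. Let `T_k(x)` be the sum of the `k` largest coordinates of `x`. If `T_k(x) ≤ α T_k(y)` for all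
`k`, then `f(x) ≤ α f(y)` for all symmetric monotonic norms `f` (Goel and Meyerson). Let `B` be about
`√(c log d / 2)`. The numbers `T_k(y)`, `k = 1, B, B ^ 2, ...`, grow at each step by a factor between
`1` and `B`, so if they are rounded to powers of `B` there are only two possibilities at each of the
`log d / log B` steps; for a nearly optimal `y` the first number has only `O(log d)` possible
values. One vector for each profile that occurs is enough.
-/

set_option autoImplicit false

namespace Pool.Agent.Results.MP_a76361_lc.SmallPortfolios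

open Pool.Agent.Q329.PF

/-- (1) For every `c > 0` and all sufficiently large `d`, every nonempty closed set of nonnegative
vectors in `ℝ ^ d`, in particular every nonempty covering polyhedron, whatever its number of
constraints, has a `(c log d)`-approximate portfolio with at most `d ^ (4 / log log d)` members.

(2) It is not true that for every `c ≥ 1` there are `C, δ > 0` such that for all sufficiently large
`d` some nonempty covering polyhedron in `ℝ ^ d` with at most `C log d` constraints has only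
`(c log d)`-approximate portfolios with at least `d ^ δ` members. -/
theorem result :
    (∀ c : ℝ, 0 < c → ∃ d₀ : ℕ, ∀ d : ℕ, d₀ ≤ d → ∀ P : Set (Fin d → ℝ),
      IsClosed P → P.Nonempty → (∀ x ∈ P, 0 ≤ x) →
      ∃ X : Finset (Fin d → ℝ), IsPortfolio (c * Real.log d) P X ∧
        (X.card : ℝ) ≤ (d : ℝ) ^ (4 / Real.log (Real.log d))) ∧
    ¬ ∀ c : ℝ, 1 ≤ c → ∃ C δ : ℝ, 0 < C ∧ 0 < δ ∧ ∃ d₀ : ℕ, ∀ d : ℕ, d₀ ≤ d →
      ∃ (r : ℕ) (A : Matrix (Fin r) (Fin d) ℝ) (b : Fin r → ℝ),
        (r : ℝ) ≤ C * Real.log d ∧ (∀ i j, 0 ≤ A i j) ∧ 0 ≤ b ∧ (covering A b).Nonempty ∧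
        ∀ X : Finset (Fin d → ℝ), IsPortfolio (c * Real.log d) (covering A b) X →
          (d : ℝ) ^ δ ≤ X.card := by
  have main : ∀ c : ℝ, 0 < c → ∃ d₀ : ℕ, ∀ d : ℕ, d₀ ≤ d → ∀ P : Set (Fin d → ℝ),
      IsClosed P → P.Nonempty → (∀ x ∈ P, 0 ≤ x) →
      ∃ X : Finset (Fin d → ℝ), IsPortfolio (c * Real.log d) P X ∧
        (X.card : ℝ) ≤ (d : ℝ) ^ (4 / Real.log (Real.log d)) := by
    intro c hc
    obtain ⟨d₀, hd₀⟩ := numbers c hc
    refine ⟨d₀, fun d hd P hPc hPn hP => ?_⟩
    obtain ⟨hd0, B, L, M, hB, hL, hM, hα, hcount⟩ := hd₀ d hd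
    obtain ⟨X, hX, hXc⟩ := exists_portfolio hd0 hPc hPn hP hB hL hM
    refine ⟨X, ⟨hX.1, fun f hf => ?_⟩, le_trans (by exact_mod_cast hXc) hcount⟩
    obtain ⟨x, hx, hfx⟩ := hX.2 f hf
    refine ⟨x, hx, hfx.trans (mul_le_mul_of_nonneg_right hα ?_)⟩
    apply Real.sInf_nonneg
    rintro _ ⟨y, -, rfl⟩
    exact hf.nonneg y
  refine ⟨main, fun hQ => ?_⟩
  obtain ⟨C, δ, -, hδ, d₁, h₁⟩ := hQ 1 le_rfl
  obtain ⟨d₂, h₂⟩ := main 1 one_pos
  have hlim : Filter.Tendsto (fun d : ℕ => Real.log (Real.log (d : ℝ))) Filter.atTop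
      Filter.atTop :=
    Real.tendsto_log_atTop.comp (Real.tendsto_log_atTop.comp tendsto_natCast_atTop_atTop)
  obtain ⟨d, hd1, hd2, hd3, hd4⟩ := ((Filter.eventually_ge_atTop d₁).and
    ((Filter.eventually_ge_atTop d₂).and ((Filter.eventually_ge_atTop 2).and
      (hlim.eventually_gt_atTop (4 / δ))))).exists
  obtain ⟨r, A, b, -, -, -, hne, hX⟩ := h₁ d hd1
  have hclosed : IsClosed (covering A b) := by
    have h1 : covering A b = {x : Fin d → ℝ | 0 ≤ x} ∩ {x : Fin d → ℝ | b ≤ A.mulVec x} := rfl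
    rw [h1]
    exact (isClosed_le continuous_const continuous_id).inter
      (isClosed_le continuous_const (Continuous.matrix_mulVec continuous_const continuous_id))
  obtain ⟨X, hXp, hXc⟩ := h₂ d hd2 (covering A b) hclosed hne fun x hx => hx.1
  have h3 := hX X hXp
  have hd1' : (1 : ℝ) < d := by exact_mod_cast (by omega : 1 < d)
  have h4 : (d : ℝ) ^ (4 / Real.log (Real.log d)) < (d : ℝ) ^ δ := by
    apply Real.rpow_lt_rpow_of_exponent_lt hd1'
    have h5 : 0 < Real.log (Real.log (d : ℝ)) := lt_trans (by positivity) hd4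
    rw [div_lt_iff₀ hδ] at hd4
    rw [div_lt_iff₀ h5]
    linarith
  linarith

end Pool.Agent.Results.MP_a76361_lc.SmallPortfolios
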